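import Pool.Agent.N437.SPC.Stm

/-!
# The polynomial Freiman-Ruzsa conjecture for almost all sets: statements (project SPC, part 3)
-/

set_option autoImplicit false

namespace Pool.Agent.N437.SPC

open Finset
open scoped Pointwise

/-- Compact convex centrally symmetric with nonempty interior. -/
def SymB {d : ℕ} (B : Set (Fin d → ℝ)) : Prop :=
  Convex ℝ B ∧ IsCompact B ∧ (interior B).Nonempty ∧ ∀ x ∈ B, -x ∈ B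

/-- The integer points of `B`. -/
def latS {d : ℕ} (B : Set (Fin d → ℝ)) : Set (Fin d → ℤ) := {c | (fun i => (c i : ℝ)) ∈ B}

/-- `A` is covered by at most `M` translates of a centred convex coset progression of dimension at
most `D` and volume at most `|A|`. -/
def CCP {Γ : Type} [AddCommGroup Γ] (D M : ℝ) (A : Finset Γ) : Prop :=
  ∃ (d : ℕ) (B : Set (Fin d → ℝ)) (ψ : (Fin d → ℤ) →+ Γ) (H : AddSubgroup Γ) (T : Finset Γ),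
    (d : ℝ) ≤ D ∧ SymB B ∧ Finite H ∧ (latS B).ncard * Nat.card H ≤ A.card ∧ (T.card : ℝ) ≤ M ∧
    ∀ a ∈ A, ∃ t ∈ T, ∃ c ∈ latS B, ∃ h ∈ H, a = t + ψ c + h

/-- `A` is covered by at most `M` translates of a proper generalised arithmetic progression of
rank at most `D` and size at most `|A|`. -/
def GAPC {Γ : Type} [AddCommGroup Γ] (D M : ℝ) (A : Finset Γ) : Prop :=
  ∃ (d : ℕ) (v : Fin d → Γ) (L : Fin d → ℕ) (T : Finset Γ), (d : ℝ) ≤ D ∧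
    (∀ a b : Fin d → ℤ, (∀ i, |a i| ≤ L i) → (∀ i, |b i| ≤ L i) →
      ∑ i, a i • v i = ∑ i, b i • v i → a = b) ∧
    ∏ i, (2 * L i + 1) ≤ A.card ∧ (T.card : ℝ) ≤ M ∧
    ∀ a ∈ A, ∃ t ∈ T, ∃ c : Fin d → ℤ, (∀ i, |c i| ≤ L i) ∧ a = t + ∑ i, c i • v i

/-- The number of translates. -/
noncomputable def mb (C K Q : ℝ) : ℝ :=
  K ^ 2 * (2 * Q) ^ (C * (1 + Real.log (1 + Real.log (2 * Q))))

/-- TRIG: few sums of the good elements of a container. -/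
def S_TRIG : Prop := ∀ {Γ : Type} [AddCommGroup Γ] [DecidableEq Γ] (Y W : Finset Γ),
  99 * Y.card ≤ 100 * (gd (fun a b => a + b) Y W).card →
  9 * Y.card ^ 2 * (gd (fun a b => a + b) Y W + gd (fun a b => a + b) Y W).card ≤ 10 * W.card ^ 3

/-- SHR: shrinking a symmetric convex body. -/
def S_SHR : Prop := ∀ (d : ℕ) (B : Set (Fin d → ℝ)) (N : ℕ), SymB B → 1 ≤ N →
  ∃ B' : Set (Fin d → ℝ), SymB B' ∧ (latS B').ncard ≤ N ∧ ∃ S : Finset (Fin d → ℤ),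
    (∀ x ∈ latS ((2 : ℝ) • B), ∃ s ∈ S, ∃ y ∈ latS B', x = s + y) ∧
    S.card * N ≤ 6561 ^ d * max (latS B).ncard N

/-- SUBG: a coset progression of dimension one in a finite group. -/
def S_SUBG : Prop := ∀ {Γ : Type} [AddCommGroup Γ] [DecidableEq Γ] (H : AddSubgroup Γ) (n : ℕ),
  Finite H → 1 ≤ n → n < Nat.card H → ∃ (H' : AddSubgroup Γ) (g : Γ) (J : ℕ) (S : Finset Γ),
    H' ≤ H ∧ (2 * J + 1) * Nat.card H' ≤ n ∧ S.card * n ≤ 6 * Nat.card H ∧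
    ∀ h ∈ H, ∃ s ∈ S, ∃ j : ℤ, |j| ≤ J ∧ ∃ h' ∈ H', h = s + j • g + h'

/-- SHRG: shrinking a convex coset progression. -/
def S_SHRG : Prop := ∃ C : ℝ, 1 ≤ C ∧ ∀ {Γ : Type} [AddCommGroup Γ] [DecidableEq Γ] (d : ℕ)
  (B : Set (Fin d → ℝ)) (ψ : (Fin d → ℤ) →+ Γ) (H : AddSubgroup Γ) (n : ℕ),
  SymB B → Finite H → 1 ≤ n →
  ∃ (d' : ℕ) (B' : Set (Fin d' → ℝ)) (ψ' : (Fin d' → ℤ) →+ Γ) (H' : AddSubgroup Γ)
    (S : Finset Γ), d' ≤ d + 1 ∧ SymB B' ∧ Finite H' ∧ (latS B').ncard * Nat.card H' ≤ n ∧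
    (∀ x ∈ latS ((2 : ℝ) • B), ∀ h ∈ H, ∃ s ∈ S, ∃ y ∈ latS B', ∃ h' ∈ H',
      ψ x + h = s + ψ' y + h') ∧
    (S.card : ℝ) * n ≤ C ^ (d + 1) * max ((latS B).ncard * Nat.card H : ℝ) n

/-- DET: from a structured set `G` which contains half of `A` to `A`. -/
def S_DET : Prop := ∃ C : ℝ, 1 ≤ C ∧ ∀ {Γ : Type} [AddCommGroup Γ] [DecidableEq Γ]
  (A G : Finset Γ) (n : ℕ) (K Q : ℝ), 1 ≤ n → A.card = n → 1 ≤ Q → Q ≤ K →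
  ((A + A).card : ℝ) ≤ K * n → n ≤ 2 * (A ∩ G).card → ((G + G).card : ℝ) ≤ 2 * Q ^ 3 * G.card →
  (G.card : ℝ) ≤ 2 * K * n → CCP (C * Real.log (2 * Q)) (mb C K Q) A

/-- PFRA: the polynomial Freiman-Ruzsa conjecture for almost all sets. -/
def S_PFRA : Prop := ∃ C : ℝ, 1 ≤ C ∧ ∀ δ : ℝ, 0 < δ → ∃ c : ℝ, 0 < c ∧ ∃ n₀ : ℕ,
  ∀ {Γ : Type} [AddCommGroup Γ] [DecidableEq Γ] (X : Finset Γ) (n : ℕ) (K Q : ℝ),
    n₀ ≤ n → Real.log X.card ≤ (n : ℝ) ^ c → 1 ≤ Q → Q ≤ K → K ≤ (n : ℝ) ^ (1 - δ) →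
    ({A : Finset Γ | A ⊆ X ∧ A.card = n ∧ ((A + A).card : ℝ) ≤ K * n ∧
      ¬ CCP (C * Real.log (2 * Q)) (mb C K Q) A}.ncard : ℝ) ≤ (C * K / Q) ^ n

/-- SHRB: shrinking a box. -/
def S_SHRB : Prop := ∀ (d : ℕ) (L : Fin d → ℕ) (N : ℕ), 1 ≤ N →
  ∃ L' : Fin d → ℕ, (∀ i, L' i ≤ L i) ∧ ∏ i, (2 * L' i + 1) ≤ N ∧ ∃ S : Finset (Fin d → ℤ),
    (∀ x : Fin d → ℤ, (∀ i, |x i| ≤ 2 * L i) → ∃ s ∈ S, ∃ y : Fin d → ℤ,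
      (∀ i, |y i| ≤ L' i) ∧ x = s + y) ∧
    S.card * N ≤ 9 ^ d * max (∏ i, (2 * L i + 1)) N

/-- DETG: the deterministic step with progressions. -/
def S_DETG : Prop := ∃ C : ℝ, 1 ≤ C ∧ ∀ {Γ : Type} [AddCommGroup Γ] [DecidableEq Γ]
  (_ : ∀ (k : ℕ) (x : Γ), k ≠ 0 → k • x = 0 → x = 0)
  (A G : Finset Γ) (n : ℕ) (K Q : ℝ), 1 ≤ n → A.card = n → 1 ≤ Q → Q ≤ K →
  ((A + A).card : ℝ) ≤ K * n → n ≤ 2 * (A ∩ G).card → ((G + G).card : ℝ) ≤ 2 * Q ^ 3 * G.card →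
  (G.card : ℝ) ≤ 2 * K * n → GAPC (C * Real.log (2 * Q)) (mb C K Q) A

/-- GAPA: covering by progressions for almost all sets in torsion-free groups. -/
def S_GAPA : Prop := ∃ C : ℝ, 1 ≤ C ∧ ∀ δ : ℝ, 0 < δ → ∃ c : ℝ, 0 < c ∧ ∃ n₀ : ℕ,
  ∀ {Γ : Type} [AddCommGroup Γ] [DecidableEq Γ] (_ : ∀ (k : ℕ) (x : Γ), k ≠ 0 → k • x = 0 → x = 0)
    (X : Finset Γ) (n : ℕ) (K Q : ℝ),
    n₀ ≤ n → Real.log X.card ≤ (n : ℝ) ^ c → 1 ≤ Q → Q ≤ K → K ≤ (n : ℝ) ^ (1 - δ) →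
    ({A : Finset Γ | A ⊆ X ∧ A.card = n ∧ ((A + A).card : ℝ) ≤ K * n ∧
      ¬ GAPC (C * Real.log (2 * Q)) (mb C K Q) A}.ncard : ℝ) ≤ (C * K / Q) ^ n

/-- CORQ: absolute constants for a good choice of `Q`. -/
def S_CORQ : Prop := ∀ C : ℝ, 1 ≤ C → ∃ C' : ℝ, 1 ≤ C' ∧ ∀ K : ℝ, 1 ≤ K → ∃ Q : ℝ, 1 ≤ Q ∧
  Q ≤ K ∧ C * Real.log (2 * Q) ≤ C' * Real.log (2 * K) / (1 + Real.log (1 + Real.log (2 * K))) ∧
  mb C K Q ≤ C' * K ^ C' ∧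
  C * K / Q ≤ C' * K ^ (1 - 1 / (1 + Real.log (1 + Real.log (2 * K))))

/-- LOWG: many sets with few sums. -/
def S_LOWG : Prop := ∀ {Γ : Type} [AddCommGroup Γ] [DecidableEq Γ] (X P : Finset Γ) (n : ℕ)
  (K : ℝ), 1 ≤ n → P ⊆ X → n ≤ P.card → ((P + P).card : ℝ) ≤ K * n →
  ((P.card : ℝ) / n) ^ n ≤
    ({A : Finset Γ | A ⊆ X ∧ A.card = n ∧ ((A + A).card : ℝ) ≤ K * n}.ncard : ℝ)

end Pool.Agent.N437.SPC
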