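import Pool.Agent.N437.SPC.STR
import Pool.Agent.N221.SPC.DET
import Pool.Agent.N690.SPC.DETG

/-!
# Structured sets are covered by few translates
-/

set_option autoImplicit false

namespace Pool.Agent.N437.SPC

open Finset
open scoped Pointwise

/-- The number of translates for a set with doubling `2 Q ^ 3`. -/
noncomputable def mq (C Q : ℝ) : ℝ := (2 * Q) ^ (C * (1 + Real.log (1 + Real.log (2 * Q))))

lemma mq_mono {C C' Q Q' : ℝ} (hC : 1 ≤ C) (hCC : C ≤ C') (hQ : 1 ≤ Q) (hQQ : Q ≤ Q') :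
    mq C Q ≤ mq C' Q' := by
  unfold mq
  have h0 : (0 : ℝ) < 2 * Q := by linarith
  have hl : Real.log (2 * Q) ≤ Real.log (2 * Q') := Real.log_le_log h0 (by linarith)
  have hl0 : 0 ≤ Real.log (2 * Q) := Real.log_nonneg (by linarith)
  have hll : Real.log (1 + Real.log (2 * Q)) ≤ Real.log (1 + Real.log (2 * Q')) :=
    Real.log_le_log (by linarith) (by linarith)
  have hll0 : 0 ≤ Real.log (1 + Real.log (2 * Q)) := Real.log_nonneg (by linarith)
  have hexp : C * (1 + Real.log (1 + Real.log (2 * Q))) ≤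
      C' * (1 + Real.log (1 + Real.log (2 * Q'))) :=
    mul_le_mul hCC (by linarith) (by linarith) (by linarith)
  calc (2 * Q) ^ (C * (1 + Real.log (1 + Real.log (2 * Q))))
      ≤ (2 * Q') ^ (C * (1 + Real.log (1 + Real.log (2 * Q)))) :=
        Real.rpow_le_rpow h0.le (by linarith) (mul_nonneg (by linarith) (by linarith))
    _ ≤ (2 * Q') ^ (C' * (1 + Real.log (1 + Real.log (2 * Q')))) :=
        Real.rpow_le_rpow_of_exponent_le (by linarith) hexp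

lemma mq_pos {C Q : ℝ} (hQ : 1 ≤ Q) : 0 < mq C Q := Real.rpow_pos_of_pos (by linarith) _

lemma mb_eq (C K Q : ℝ) : mb C K Q = K ^ 2 * mq C Q := rfl

/-- A set with doubling `2 Q ^ 3` is covered by few translates of a convex coset progression. -/
lemma nc_ccp {Γ : Type} [AddCommGroup Γ] [DecidableEq Γ] (G : Finset Γ) (Q : ℝ) (hQ : 1 ≤ Q)
    (hG : G.Nonempty) (hGG : ((G + G).card : ℝ) ≤ 2 * Q ^ 3 * G.card) :
    ∃ (d : ℕ) (B : Set (Fin d → ℝ)) (ψ : (Fin d → ℤ) →+ Γ) (H : AddSubgroup Γ) (T : Finset Γ),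
      (d : ℝ) ≤ 117002 * Real.log (2 * Q) ∧ SymB B ∧ Finite H ∧
      (latS B).ncard * Nat.card H ≤ G.card ∧ (T.card : ℝ) ≤ mq 117002 Q ∧
      ∀ a ∈ G, ∃ t ∈ T, ∃ c ∈ latS B, ∃ h ∈ H, a = t + ψ c + h := by
  obtain ⟨d, B, ψ, H, T, hd, hB, hH, hv, hT, hc⟩ := H112.near_pfr hG hGG
  have h := Pool.Agent.N221.SPC.numer (C1 := 1) (K := 1 / 2) (Q := Q) (d := d) (T0 := T.card)
    (T := T.card) le_rfl hQ hd hT (by norm_num)
  rw [Real.log_one, mul_zero, add_zero] at h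
  refine ⟨d, B, ψ, H, T, ?_, hB, hH, hv, ?_, hc⟩
  · have := h.1
    push_cast at this
    linarith
  · have h2 := h.2
    rw [mb_eq] at h2
    have h3 := mq_pos (C := 117002) hQ
    nlinarith

/-- A set with doubling `2 Q ^ 3` in a torsion-free group is covered by few translates of a proper
progression. -/
lemma nc_gap {Γ : Type} [AddCommGroup Γ] [DecidableEq Γ]
    (htf : ∀ (k : ℕ) (x : Γ), k ≠ 0 → k • x = 0 → x = 0) (G : Finset Γ) (Q : ℝ) (hQ : 1 ≤ Q)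
    (hG : G.Nonempty) (hGG : ((G + G).card : ℝ) ≤ 2 * Q ^ 3 * G.card) :
    ∃ (d : ℕ) (v : Fin d → Γ) (L : Fin d → ℕ) (T : Finset Γ),
      (d : ℝ) ≤ 160000 * Real.log (2 * Q) ∧
      (∀ a b : Fin d → ℤ, (∀ i, |a i| ≤ L i) → (∀ i, |b i| ≤ L i) →
        ∑ i, a i • v i = ∑ i, b i • v i → a = b) ∧
      ∏ i, (2 * L i + 1) ≤ G.card ∧ (T.card : ℝ) ≤ mq 160000 Q ∧
      ∀ a ∈ G, ∃ t ∈ T, ∃ c : Fin d → ℤ, (∀ i, |c i| ≤ L i) ∧ a = t + ∑ i, c i • v i := by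
  obtain ⟨k, v, L, T, hk, hp, hv, hT, hc⟩ := H112.near_pfr_gap htf hG hGG
  have h := Pool.Agent.N690.SPC.const_bound (K := 1 / 2) (Q := Q) (T0 := T.card) hQ hk hT
  refine ⟨k, v, L, T, h.1, hp, hv, ?_, hc⟩
  have h2 := h.2
  rw [mb_eq] at h2
  have h3 := mq_pos (C := 160000) hQ
  have h4 : (1 : ℝ) ≤ 9 ^ k := one_le_pow₀ (by norm_num)
  have h5 : (T.card : ℝ) ≤ T.card * 9 ^ k := le_mul_of_one_le_right (Nat.cast_nonneg _) h4
  nlinarith

end Pool.Agent.N437.SPC
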