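import Pool.Agent.N437.SPC.Stm3
import Pool.Agent.N687.SPC.MAIN

set_option autoImplicit false

/-!
# The structure of almost all sets with small doubling (adapted from the proof of helper400)
-/

namespace Pool.Agent.N437.SPC

open Finset
open scoped Pointwise

lemma cnt_le {Γ : Type} [AddCommGroup Γ] [DecidableEq Γ] (y : Γ) (R W : Finset Γ) :
    cnt (fun a b : Γ => a + b) y R W ≤ W.card := by
  unfold cnt
  refine Finset.card_le_card_of_injOn (fun b => y + b) ?_ ?_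
  · intro u hu
    exact (Finset.mem_filter.1 (Finset.mem_coe.1 hu)).2
  · intro u _ v _ huv
    exact add_left_cancel huv

/-- the deterministic part: the good elements of a large container -/
lemma det_step (h3 : S_TRIG) {Γ : Type} [AddCommGroup Γ] [DecidableEq Γ] (A Y : Finset Γ) (n : ℕ)
    (K Q : ℝ)
    (hn : 1 ≤ n) (hA : A.card = n) (hQ : 1 ≤ Q) (hQK : Q ≤ K) (hW : ((A + A).card : ℝ) ≤ K * n)
    (hY : K * n / Q < Y.card)
    (hG : 99 * Y.card ≤ 100 * (gd (fun a b : Γ => a + b) Y (A + A)).card) :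
    97 * (gd (fun a b : Γ => a + b) Y (A + A)).card ≤ 100 * (A + A).card ∧
      ((gd (fun a b : Γ => a + b) Y (A + A) + gd (fun a b : Γ => a + b) Y (A + A)).card : ℝ) ≤
        2 * Q ^ 3 * (gd (fun a b : Γ => a + b) Y (A + A)).card := by
  set W := A + A with hWd
  set G := gd (fun a b : Γ => a + b) Y W with hGd
  have hn' : (1 : ℝ) ≤ n := by exact_mod_cast hn
  have hQ0 : 0 < Q := by linarith
  have hK0 : 0 < K := by linarith
  have hY0 : (0 : ℝ) < Y.card := lt_of_le_of_lt (by positivity) hY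
  have hY0' : 0 < Y.card := by exact_mod_cast hY0
  have hWY : (W.card : ℝ) ≤ Q * Y.card := by
    rw [div_lt_iff₀ hQ0] at hY
    linarith
  have hT := h3 Y W hG
  have hT' : 9 * (Y.card : ℝ) ^ 2 * ((G + G).card : ℝ) ≤ 10 * (W.card : ℝ) ^ 3 := by
    exact_mod_cast hT
  have hG' : 99 * (Y.card : ℝ) ≤ 100 * (G.card : ℝ) := by exact_mod_cast hG
  have hW3 : (W.card : ℝ) ^ 3 ≤ (Q * Y.card) ^ 3 :=
    pow_le_pow_left₀ (Nat.cast_nonneg _) hWY 3
  have hGG : ((G + G).card : ℝ) ≤ 2 * Q ^ 3 * G.card := by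
    have h4 : (Y.card : ℝ) ^ 2 * (9 * ((G + G).card : ℝ)) ≤
        (Y.card : ℝ) ^ 2 * (10 * Q ^ 3 * Y.card) := by
      calc (Y.card : ℝ) ^ 2 * (9 * ((G + G).card : ℝ)) =
          9 * (Y.card : ℝ) ^ 2 * ((G + G).card : ℝ) := by ring
        _ ≤ 10 * (Q * Y.card) ^ 3 := by linarith
        _ = (Y.card : ℝ) ^ 2 * (10 * Q ^ 3 * Y.card) := by ring
    have h5 : 9 * ((G + G).card : ℝ) ≤ 10 * Q ^ 3 * Y.card :=
      le_of_mul_le_mul_left h4 (by positivity)
    have h6 : 10 * Q ^ 3 * (Y.card : ℝ) ≤ 10 * Q ^ 3 * (100 / 99 * G.card) :=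
      mul_le_mul_of_nonneg_left (by linarith) (by positivity)
    have h7 : 0 ≤ Q ^ 3 * (G.card : ℝ) := by positivity
    nlinarith
  have hGne : 0 < G.card := by omega
  obtain ⟨y, hy⟩ := Finset.card_pos.1 hGne
  have hy2 : 97 * Y.card ≤ 100 * cnt (fun a b : Γ => a + b) y Y W := by
    rw [hGd] at hy
    exact (Finset.mem_filter.1 hy).2
  have hy3 := cnt_le y Y W
  have hYW : 97 * Y.card ≤ 100 * W.card := by omega
  have hGY : G.card ≤ Y.card := Finset.card_le_card (Finset.filter_subset _ _)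
  exact ⟨by omega, hGG⟩

/-- `A` is nearly contained in a set `G` whose doubling is at most `2 Q ^ 3`. -/
def Str {Γ : Type} [AddCommGroup Γ] [DecidableEq Γ] (X : Finset Γ) (c Q : ℝ) (A : Finset Γ) :
    Prop :=
  ∃ G ⊆ X, ((A \ G).card : ℝ) ≤ (A.card : ℝ) ^ (1 - c) ∧ 97 * G.card ≤ 100 * (A + A).card ∧
    ((G + G).card : ℝ) ≤ 2 * Q ^ 3 * G.card

/-- STR: the structure of almost all sets with small doubling. -/
def S_STR : Prop := ∀ δ : ℝ, 0 < δ → ∃ c : ℝ, 0 < c ∧ ∃ n₀ : ℕ,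
  ∀ {Γ : Type} [AddCommGroup Γ] [DecidableEq Γ] (X : Finset Γ) (n : ℕ) (K Q : ℝ),
    n₀ ≤ n → Real.log X.card ≤ (n : ℝ) ^ c → 1 ≤ Q → Q ≤ K → K ≤ (n : ℝ) ^ (1 - δ) →
    1 ≤ n ∧ 2 * (n : ℝ) ^ (1 - c) ≤ n ∧
    ({A : Finset Γ | A ⊆ X ∧ A.card = n ∧ ((A + A).card : ℝ) ≤ K * n ∧
      ¬ Str X c Q A}.ncard : ℝ) ≤ (2 * Real.exp 1 ^ 2 * K / Q) ^ n

theorem t_STR (h1 : S_CT) (h2 : S_CNT) (h3 : S_TRIG) : S_STR := by
  intro δ hδ
  obtain ⟨c, hc, hc1, n₀, hct⟩ := h1 1 δ hδ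
  refine ⟨c / 2, half_pos hc, max (max n₀ 3) ⌈(7 : ℝ) ^ (2 / c)⌉₊, ?_⟩
  intro Γ _ _ X n K Q hn hX hQ hQK hK
  have hnn : n₀ ≤ n := le_trans (le_trans (le_max_left _ _) (le_max_left _ _)) hn
  have hn3 : 3 ≤ n := le_trans (le_trans (le_max_right _ _) (le_max_left _ _)) hn
  have hn3' : (3 : ℝ) ≤ n := by exact_mod_cast hn3
  have hn1 : (1 : ℝ) ≤ n := by linarith
  have hn0 : (0 : ℝ) < n := by linarith
  have hQ0 : 0 < Q := by linarith
  have hK0 : 0 < K := by linarith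
  have h7 : 7 ≤ (n : ℝ) ^ (c / 2) := by
    have e1 : (7 : ℝ) ^ (2 / c) ≤ n :=
      (Nat.le_ceil _).trans (by exact_mod_cast (le_max_right _ _).trans hn)
    have e2 : ((7 : ℝ) ^ (2 / c)) ^ (c / 2) = 7 := by
      rw [← Real.rpow_mul (by norm_num)]
      have : 2 / c * (c / 2) = 1 := by field_simp
      rw [this, Real.rpow_one]
    rw [← e2]
    exact Real.rpow_le_rpow (by positivity) e1 (by positivity)
  have h49 := Pool.Agent.N687.SPCMain.half_part n c hn3 h7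
  set M : ℝ := K * n / Q with hM
  have hnM : (n : ℝ) ≤ M := by
    rw [hM, le_div_iff₀ hQ0]
    nlinarith
  set f : Fin 1 → Γ → Γ → Γ := fun _ a b => a + b with hf
  have hlogX : Real.log X.card ≤ (n : ℝ) ^ c :=
    hX.trans (Real.rpow_le_rpow_of_exponent_le hn1 (by linarith))
  have hOp : ∀ i, Op (f i) X := fun i =>
    ⟨fun x _ y _ => add_comm x y, fun x _ y _ z _ h => add_left_cancel (h : x + y = x + z)⟩
  obtain ⟨F, hF1, hF2, hF3⟩ := hct f X n hnn hlogX hOp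
  set D : ℕ := ⌊(n : ℝ) ^ (1 - c)⌋₊ + 1 with hD
  have hDu : (D : ℝ) ≤ (n : ℝ) ^ (1 - c) + 1 := by
    rw [hD]
    push_cast
    have := Nat.floor_le (show (0 : ℝ) ≤ (n : ℝ) ^ (1 - c) by positivity)
    linarith
  have h2D : 2 * D ≤ n := by
    have : (2 * D : ℝ) ≤ n := by linarith
    exact_mod_cast this
  set F' := F.filter (fun Y => (Y.card : ℝ) ≤ M) with hF'
  have hsub : {A : Finset Γ | A ⊆ X ∧ A.card = n ∧ ((A + A).card : ℝ) ≤ K * n ∧
      ¬ Str X (c / 2) Q A} ⊆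
      (((X.powersetCard n).filter (fun A => ∃ Y ∈ F', (A \ Y).card ≤ D) :
        Finset (Finset Γ)) : Set (Finset Γ)) := by
    intro A hA
    obtain ⟨hAX, hAn, hAA, hAC⟩ := hA
    have hW : ∀ i, ((Finset.image₂ (f i) A A).card : ℝ) ≤ (n : ℝ) ^ (2 - δ) := by
      intro i
      have e1 : Finset.image₂ (f i) A A = A + A := rfl
      rw [e1]
      refine hAA.trans ?_
      have e2 : (n : ℝ) ^ (2 - δ) = (n : ℝ) ^ (1 - δ) * n := by
        nth_rewrite 3 [← Real.rpow_one (n : ℝ)]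
        rw [← Real.rpow_add hn0]
        congr 1
        ring
      rw [e2]
      exact mul_le_mul_of_nonneg_right hK hn0.le
    obtain ⟨Y, hYF, hY1, hY2⟩ := hF3 A hAX (by omega) hAn.le hW
    have hY20 : 99 * Y.card ≤ 100 * (gd (fun a b : Γ => a + b) Y (A + A)).card := (hY2 0).1
    have hY21 : ((A \ gd (fun a b : Γ => a + b) Y (A + A)).card : ℝ) ≤ (n : ℝ) ^ (1 - c) :=
      (hY2 0).2
    have hYM : (Y.card : ℝ) ≤ M := by
      by_contra hcon
      rw [not_le] at hcon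
      apply hAC
      obtain ⟨hd1, hd2⟩ := det_step h3 A Y n K Q (by omega) hAn hQ hQK hAA hcon hY20
      refine ⟨gd (fun a b : Γ => a + b) Y (A + A), (Finset.filter_subset _ _).trans (hF2 Y hYF),
        ?_, hd1, hd2⟩
      rw [hAn]
      exact hY21.trans (Real.rpow_le_rpow_of_exponent_le hn1 (by linarith))
    rw [Finset.mem_coe, Finset.mem_filter, Finset.mem_powersetCard]
    refine ⟨⟨hAX, hAn⟩, Y, Finset.mem_filter.2 ⟨hYF, hYM⟩, ?_⟩
    have e2 : (A \ Y).card ≤ ⌊(n : ℝ) ^ (1 - c)⌋₊ := Nat.le_floor hY1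
    omega
  have hc2 := h2 X F' n D M (by omega) h2D (fun Y hY => (Finset.mem_filter.1 hY).2) (by linarith)
  have hFc : (F'.card : ℝ) ≤ Real.exp ((n : ℝ) ^ (1 - c)) := by
    refine le_trans ?_ hF1
    exact_mod_cast Finset.card_le_card (Finset.filter_subset _ _)
  have hexp := Pool.Agent.N687.SPCMain.exp_part n D X.card _ c hc hc1 hn3 h7 hDu hX hFc
  have hMn : 2 * Real.exp 1 * M / n = 2 * Real.exp 1 * (K / Q) := by
    rw [hM]
    field_simp
  have hM0 : 0 ≤ M := hn0.le.trans hnM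
  have hcard : ({A : Finset Γ | A ⊆ X ∧ A.card = n ∧ ((A + A).card : ℝ) ≤ K * n ∧
      ¬ Str X (c / 2) Q A}.ncard : ℝ) ≤
      (((X.powersetCard n).filter (fun A => ∃ Y ∈ F', (A \ Y).card ≤ D)).card : ℝ) := by
    have := Set.ncard_le_ncard hsub (Finset.finite_toSet _)
    rw [Set.ncard_coe_finset] at this
    exact_mod_cast this
  refine ⟨by omega, ?_, ?_⟩
  · have e3 : (n : ℝ) ^ (1 - c / 2) * (n : ℝ) ^ (c / 2) = n := by
      rw [← Real.rpow_add hn0]
      simp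
    have e4 : 0 ≤ (n : ℝ) ^ (1 - c / 2) := by positivity
    nlinarith
  calc _ ≤ _ := hcard
    _ ≤ _ := hc2
    _ ≤ Real.exp n * (2 * Real.exp 1 * M / n) ^ n := by gcongr
    _ = (2 * Real.exp 1 ^ 2 * (K / Q)) ^ n := by
        rw [show Real.exp n = Real.exp 1 ^ n by rw [← Real.exp_nat_mul, mul_one], ← mul_pow, hMn]
        congr 1
        ring
    _ = (2 * Real.exp 1 ^ 2 * K / Q) ^ n := by rw [mul_div_assoc]

end Pool.Agent.N437.SPC
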