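import Mathlib

/-!
# Containers for sets with few sums or products

Definitions and exact statements of the parts of project SPC (helper437).
-/

set_option autoImplicit false

namespace Pool.Agent.N437.SPC

open Finset
open scoped Pointwise

section Defs

variable {α : Type} [DecidableEq α]

/-- The number of `u ∈ R` with `f y u ∈ W`. -/
def cnt (f : α → α → α) (y : α) (R W : Finset α) : ℕ := (R.filter (fun u => f y u ∈ W)).card

/-- The elements of `Y` whose translate of `Y` is almost contained in `W`. -/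
def gd (f : α → α → α) (Y W : Finset α) : Finset α :=
  Y.filter (fun y => 97 * Y.card ≤ 100 * cnt f y Y W)

/-- The number of sample points in the translate `f y R`. -/
def hits (f : α → α → α) (R : Finset α) {s : ℕ} (S : Fin s → α) (y : α) : ℕ :=
  (univ.filter (fun j => S j ∈ R.image (f y))).card

/-- The elements of `Y` whose translate of `R` contains at least `q` sample points. -/
def red (f : α → α → α) (R Y : Finset α) {s : ℕ} (S : Fin s → α) (q : ℕ) : Finset α :=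
  Y.filter (fun y => q ≤ hits f R S y)

/-- `f` is symmetric and cancellative on `X`. -/
def Op (f : α → α → α) (X : Finset α) : Prop :=
  (∀ x ∈ X, ∀ y ∈ X, f x y = f y x) ∧ ∀ x ∈ X, ∀ y ∈ X, ∀ z ∈ X, f x y = f x z → y = z

end Defs

/-- The number of representations of `l` as a ratio of elements of `H`. -/
noncomputable def rep (H : Finset ℝ) (l : ℝ) : ℕ := (H.filter (fun c => l * c ∈ H)).card

/-! ### The container theorem -/

/-- VAR: the variance of the number of sample points in `U`. -/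
def S_VAR : Prop := ∀ {α : Type} [DecidableEq α] (W U : Finset α) (s : ℕ), U ⊆ W → W.Nonempty →
  ∑ S ∈ Fintype.piFinset (fun _ : Fin s => W),
    (((univ.filter (fun j => S j ∈ U)).card : ℝ) - s * U.card / W.card) ^ 2 ≤
      s * U.card / W.card * (W.card : ℝ) ^ s

/-- SEP: one sample separates `B` from `Z`. -/
def S_SEP : Prop := ∀ {α : Type} [DecidableEq α] (f : α → α → α) (B Z R W : Finset α) (s : ℕ)
  (a b : ℝ), 0 < s → a < b → R.Nonempty → W.Nonempty → B.Nonempty → Z.Nonempty →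
  (∀ y ∈ B ∪ Z, Set.InjOn (f y) R) →
  (∀ y ∈ B, (1 - a) * R.card ≤ cnt f y R W) → (∀ y ∈ Z, (cnt f y R W : ℝ) ≤ (1 - b) * R.card) →
  ∃ S ∈ Fintype.piFinset (fun _ : Fin s => W), ∃ q ≤ s,
    ((B.filter (fun y => hits f R S y < q)).card : ℝ) ≤
        8 * W.card / ((b - a) ^ 2 * s * R.card) * B.card ∧
      ((Z.filter (fun y => q ≤ hits f R S y)).card : ℝ) ≤
        8 * W.card / ((b - a) ^ 2 * s * R.card) * Z.card

/-- STEP: either `Y` is structured or it can be reduced. -/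
def S_STEP : Prop := ∀ {α : Type} [DecidableEq α] (f : α → α → α) (X Y A W : Finset α) (s t : ℕ),
  Op f X → Y ⊆ X → A ⊆ X → (∀ a ∈ A, ∀ b ∈ A, f a b ∈ W) → 0 < s → 0 < t →
  2 * t ≤ (A ∩ Y).card → 640000 * W.card ≤ s * t →
  (99 * Y.card ≤ 100 * (gd f Y W).card ∧ ((A ∩ Y) \ gd f Y W).card ≤ t) ∨
    ∃ R, (R = Y ∨ R ⊆ X ∧ R.card = t) ∧ ∃ S ∈ Fintype.piFinset (fun _ : Fin s => W), ∃ q ≤ s,
      400 * (red f R Y S q).card ≤ 399 * Y.card ∧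
      (((A ∩ Y) \ red f R Y S q).card : ℝ) ≤
        t + 320000 * W.card / (s * t) * (A ∩ Y).card

/-- FAM: the family of containers. -/
def S_FAM : Prop := ∀ {α : Type} [DecidableEq α] (r : ℕ) (f : Fin r → α → α → α) (X : Finset α)
  (s t l L : ℕ), (∀ i, Op (f i) X) → 0 < s → 0 < t →
  399 ^ L * X.card < 400 ^ L →
  ∃ F : Finset (Finset α),
    F.card ≤ (1 + r * (X.card ^ t + 1) * (r * X.card ^ 2) ^ s * (s + 1)) ^ L ∧
    (∀ Y ∈ F, Y ⊆ X) ∧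
    ∀ A ⊆ X, (∀ i, 640000 * (image₂ (f i) A A).card ≤ s * t) →
      (∀ i, (t : ℝ) + 320000 * (image₂ (f i) A A).card / (s * t) * A.card ≤ l) →
      L * l + 2 * t ≤ A.card →
      ∃ Y ∈ F, (A \ Y).card ≤ L * l ∧
        ∀ i, 99 * Y.card ≤ 100 * (gd (f i) Y (image₂ (f i) A A)).card ∧
          (A \ gd (f i) Y (image₂ (f i) A A)).card ≤ L * l + t

/-- CT: the container theorem. -/
def S_CT : Prop := ∀ (r : ℕ) (δ : ℝ), 0 < δ → ∃ c : ℝ, 0 < c ∧ c ≤ 1 / 2 ∧ ∃ n₀ : ℕ,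
  ∀ {α : Type} [DecidableEq α] (f : Fin r → α → α → α) (X : Finset α) (n : ℕ),
  n₀ ≤ n → Real.log X.card ≤ (n : ℝ) ^ c → (∀ i, Op (f i) X) →
  ∃ F : Finset (Finset α), (F.card : ℝ) ≤ Real.exp ((n : ℝ) ^ (1 - c)) ∧ (∀ Y ∈ F, Y ⊆ X) ∧
    ∀ A ⊆ X, n ≤ A.card + 1 → A.card ≤ n →
      (∀ i, ((image₂ (f i) A A).card : ℝ) ≤ (n : ℝ) ^ (2 - δ)) →
      ∃ Y ∈ F, ((A \ Y).card : ℝ) ≤ (n : ℝ) ^ (1 - c) ∧
        ∀ i, 99 * Y.card ≤ 100 * (gd (f i) Y (image₂ (f i) A A)).card ∧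
          ((A \ gd (f i) Y (image₂ (f i) A A)).card : ℝ) ≤ (n : ℝ) ^ (1 - c)

/-- CNT: the number of sets almost contained in one of the containers. -/
def S_CNT : Prop := ∀ {α : Type} [DecidableEq α] (X : Finset α) (F : Finset (Finset α))
  (n D : ℕ) (M : ℝ), 0 < n → 2 * D ≤ n → (∀ Y ∈ F, (Y.card : ℝ) ≤ M) → (n : ℝ) ≤ 2 * M →
  (((X.powersetCard n).filter (fun A => ∃ Y ∈ F, (A \ Y).card ≤ D)).card : ℝ) ≤
    F.card * ((X.card : ℝ) + 1) ^ D * (n + 1) * (2 * Real.exp 1 * M / n) ^ n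

/-! ### Sums and products along almost complete graphs -/

/-- EL: Elekes. -/
def S_EL : Prop := ∀ H P Q : Finset ℝ, (0 : ℝ) ∉ H →
  (∀ y ∈ H, 9 * H.card ≤ 10 * cnt (fun a b => a + b) y H P) →
  (∀ y ∈ H, 9 * H.card ≤ 10 * cnt (fun a b => a * b) y H Q) →
  H.card ^ 5 ≤ 1000 * P.card ^ 2 * Q.card ^ 2

/-- EN: a dyadic class of ratios. -/
def S_EN : Prop := ∀ H Q : Finset ℝ, (0 : ℝ) ∉ H → H.Nonempty →
  (∀ y ∈ H, 9 * H.card ≤ 10 * cnt (fun a b => a * b) y H Q) →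
  ∃ (R : Finset ℝ) (j : ℕ), (∀ l ∈ R, l ≠ 0 ∧ 2 ^ j ≤ rep H l) ∧ R.card * 2 ^ j ≤ H.card ^ 2 ∧
    81 * H.card ^ 4 ≤ 100 * Q.card * (R.card * 4 ^ (j + 1) * (Nat.log 2 H.card + 1))

/-- INC: Solymosi's incidence argument. -/
def S_INC : Prop := ∀ (H P R : Finset ℝ) (k : ℕ), (0 : ℝ) ∉ H → 2 ≤ k →
  (∀ y ∈ H, 9 * H.card ≤ 10 * cnt (fun a b => a + b) y H P) →
  (∀ l ∈ R, l ≠ 0 ∧ 2 * k ≤ rep H l) →
  R.card ^ 3 * H.card ^ 2 * k ^ 6 ≤ 10 ^ 10 * (Nat.log 2 H.card + 1) * P.card ^ 8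

/-- SO: Solymosi, `|A + A| ^ 8 |A A| ^ 3 ≥ |A| ^ 14`. -/
def S_SO : Prop := ∀ H P Q : Finset ℝ, (0 : ℝ) ∉ H →
  (∀ y ∈ H, 9 * H.card ≤ 10 * cnt (fun a b => a + b) y H P) →
  (∀ y ∈ H, 9 * H.card ≤ 10 * cnt (fun a b => a * b) y H Q) →
  H.card ^ 14 ≤ 10 ^ 14 * (Nat.log 2 H.card + 1) ^ 4 * P.card ^ 8 * Q.card ^ 3

/-! ### Counting -/

/-- MAIN: the number of sets with few sums and few products. -/
def S_MAIN : Prop := ∃ C : ℝ, 0 < C ∧ ∀ δ : ℝ, 0 < δ → ∃ c : ℝ, 0 < c ∧ ∃ n₀ : ℕ,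
  ∀ (n : ℕ) (X : Finset ℝ) (m₁ m₂ : ℕ), n₀ ≤ n → Real.log X.card ≤ (n : ℝ) ^ c →
    (m₁ : ℝ) ≤ (n : ℝ) ^ (2 - δ) → (m₂ : ℝ) ≤ (n : ℝ) ^ (2 - δ) →
    (((X.powersetCard n).filter (fun A => (A + A).card ≤ m₁ ∧ (A * A).card ≤ m₂)).card : ℝ) ≤
      (C * min (((m₁ : ℝ) * m₂) ^ (2 / 5 : ℝ))
        (((m₁ : ℝ) ^ 8 * (m₂ : ℝ) ^ 3 * Real.log n ^ 4) ^ (1 / 14 : ℝ)) / n) ^ n

end Pool.Agent.N437.SPC
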