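import Pool.Agent.N437.SPC.Stm

/-!
# Counting sets of integers with few sums or products: statements of the second part of project SPC
-/

set_option autoImplicit false

namespace Pool.Agent.N437.SPC

open Finset
open scoped Pointwise

/-- TRI: few sums or products of the good elements of a container. -/
def S_TRI : Prop :=
  (∀ Y W : Finset ℤ, 99 * Y.card ≤ 100 * (gd (fun a b => a + b) Y W).card →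
    9 * Y.card ^ 2 * (gd (fun a b => a + b) Y W + gd (fun a b => a + b) Y W).card ≤
      10 * W.card ^ 3) ∧
  (∀ Y W : Finset ℤ, (0 : ℤ) ∉ Y → 99 * Y.card ≤ 100 * (gd (fun a b => a * b) Y W).card →
    9 * Y.card ^ 2 * (gd (fun a b => a * b) Y W * gd (fun a b => a * b) Y W).card ≤
      10 * W.card ^ 3)

/-- PROD: few sums, many products of subsets. -/
def S_PROD : Prop := ∀ (k : ℕ) (ε : ℝ), 1 ≤ k → 0 < ε → ∃ η : ℝ, 0 < η ∧ ∃ n₀ : ℕ,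
  ∀ (n : ℕ) (G : Finset ℤ), n₀ ≤ n → (G.card : ℝ) ≤ (n : ℝ) ^ 3 →
    ((G + G).card : ℝ) ≤ (n : ℝ) ^ η * G.card →
    ∀ B : Fin k → Finset ℤ, (∀ i, B i ⊆ G ∧ 2 ≤ (B i).card) →
      ∏ i, ((B i).card : ℝ) ≤
        (n : ℝ) ^ ε * ((Fintype.piFinset B).image fun b => ∏ i, b i).card

/-- SUM: few products, many sums of dilates of subsets. -/
def S_SUM : Prop := ∀ (k : ℕ) (ε : ℝ), 1 ≤ k → 0 < ε → ∃ η : ℝ, 0 < η ∧ ∃ n₀ : ℕ,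
  ∀ (n : ℕ) (G : Finset ℤ), n₀ ≤ n → (0 : ℤ) ∉ G →
    ((G * G).card : ℝ) ≤ (n : ℝ) ^ η * G.card →
    ∀ B : Fin k → Finset ℤ, (∀ i, B i ⊆ G) → ∀ l : Fin k → ℤ, (∀ i, l i ≠ 0) →
      ∏ i, ((B i).card : ℝ) ≤
        (n : ℝ) ^ ε * ((Fintype.piFinset B).image fun b => ∑ i, l i * b i).card

/-- `A` has large subsets with few products. -/
def BadProd (k n : ℕ) (c ε : ℝ) (A : Finset ℤ) : Prop :=
  ∃ B : Fin k → Finset ℤ, (∀ i, B i ⊆ A ∧ (n : ℝ) ^ (1 - c) ≤ (B i).card) ∧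
    (((Fintype.piFinset B).image fun b => ∏ i, b i).card : ℝ) <
      (n : ℝ) ^ (-ε) * ∏ i, ((B i).card : ℝ)

/-- `A` has large subsets with few sums of dilates. -/
def BadSum (k n : ℕ) (c ε : ℝ) (A : Finset ℤ) : Prop :=
  ∃ B : Fin k → Finset ℤ, (∀ i, B i ⊆ A ∧ (n : ℝ) ^ (1 - c) ≤ (B i).card) ∧
    ∃ l : Fin k → ℤ, (∀ i, l i ≠ 0) ∧
      (((Fintype.piFinset B).image fun b => ∑ i, l i * b i).card : ℝ) <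
        (n : ℝ) ^ (-ε) * ∏ i, ((B i).card : ℝ)

/-- MAIN2: counting for sets of integers. -/
def S_MAIN2 : Prop := ∀ (k : ℕ) (ε δ : ℝ), 1 ≤ k → 0 < ε → 0 < δ → ∃ c : ℝ, 0 < c ∧ ∃ n₀ : ℕ,
  ∀ (n : ℕ) (X : Finset ℤ) (m : ℕ), n₀ ≤ n → Real.log X.card ≤ (n : ℝ) ^ c →
    (m : ℝ) ≤ (n : ℝ) ^ (2 - δ) →
    (({A : Finset ℤ | A ⊆ X ∧ A.card = n ∧ (A + A).card ≤ m ∧ BadProd k n c ε A}.ncard : ℝ) ≤
        ((m : ℝ) / (n : ℝ) ^ (1 + c)) ^ n) ∧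
    (({A : Finset ℤ | A ⊆ X ∧ A.card = n ∧ (A * A).card ≤ m ∧ BadSum k n c ε A}.ncard : ℝ) ≤
        ((m : ℝ) / (n : ℝ) ^ (1 + c)) ^ n)

/-- LOW: subsets of progressions. -/
def S_LOW : Prop := ∀ (X : Finset ℤ) (n m : ℕ), 1 ≤ n → 2 * n ≤ m + 1 →
  ((∃ a d : ℤ, d ≠ 0 ∧ ∀ i : ℕ, 2 * i < m → a + d * i ∈ X) →
    ((m : ℝ) / (2 * n)) ^ n ≤
      ({A : Finset ℤ | A ⊆ X ∧ A.card = n ∧ (A + A).card ≤ m}.ncard : ℝ)) ∧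
  ((∃ a d : ℤ, a ≠ 0 ∧ 2 ≤ d ∧ ∀ i : ℕ, 2 * i < m → a * d ^ i ∈ X) →
    ((m : ℝ) / (2 * n)) ^ n ≤
      ({A : Finset ℤ | A ⊆ X ∧ A.card = n ∧ (A * A).card ≤ m}.ncard : ℝ))

/-- MAIN3: proportions. -/
def S_MAIN3 : Prop := ∀ (k : ℕ) (ε δ : ℝ), 1 ≤ k → 0 < ε → 0 < δ → ∃ c : ℝ, 0 < c ∧ ∃ n₀ : ℕ,
  ∀ (n : ℕ) (X : Finset ℤ) (m : ℕ), n₀ ≤ n → Real.log X.card ≤ (n : ℝ) ^ c →
    (m : ℝ) ≤ (n : ℝ) ^ (2 - δ) →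
    ((∃ a d : ℤ, d ≠ 0 ∧ ∀ i : ℕ, 2 * i < m → a + d * i ∈ X) →
      ({A : Finset ℤ | A ⊆ X ∧ A.card = n ∧ (A + A).card ≤ m ∧ BadProd k n c ε A}.ncard : ℝ) ≤
        (n : ℝ) ^ (-(c * n)) *
          ({A : Finset ℤ | A ⊆ X ∧ A.card = n ∧ (A + A).card ≤ m}.ncard : ℝ)) ∧
    ((∃ a d : ℤ, a ≠ 0 ∧ 2 ≤ d ∧ ∀ i : ℕ, 2 * i < m → a * d ^ i ∈ X) →
      ({A : Finset ℤ | A ⊆ X ∧ A.card = n ∧ (A * A).card ≤ m ∧ BadSum k n c ε A}.ncard : ℝ) ≤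
        (n : ℝ) ^ (-(c * n)) *
          ({A : Finset ℤ | A ⊆ X ∧ A.card = n ∧ (A * A).card ≤ m}.ncard : ℝ))

end Pool.Agent.N437.SPC
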